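import Pool.Agent.H178R3.PosFixedDim

/-!
# Linear algebra for arrangements of dimension at most three
-/

set_option autoImplicit false

open Set

namespace Pool.Agent.J4.H33.DM

/-- Two of three real numbers have a nonnegative product. -/
theorem exists_mul_nonneg (c : Fin 3 → ℝ) : ∃ i j, i ≠ j ∧ 0 ≤ c i * c j := by
  rcases le_total 0 (c 0) with h0 | h0 <;> rcases le_total 0 (c 1) with h1 | h1 <;>
    rcases le_total 0 (c 2) with h2 | h2 <;>
    first
    | exact ⟨0, 1, by decide, mul_nonneg h0 h1⟩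
    | exact ⟨0, 1, by decide, mul_nonneg_of_nonpos_of_nonpos h0 h1⟩
    | exact ⟨0, 2, by decide, mul_nonneg h0 h2⟩
    | exact ⟨0, 2, by decide, mul_nonneg_of_nonpos_of_nonpos h0 h2⟩
    | exact ⟨1, 2, by decide, mul_nonneg h1 h2⟩
    | exact ⟨1, 2, by decide, mul_nonneg_of_nonpos_of_nonpos h1 h2⟩

variable {V : Type*} [AddCommGroup V] [Module ℝ V]

/-- The half of the comparison lemma in which the coefficient of `y` is nonnegative. -/
theorem compare_half {P : Set (V →ₗ[ℝ] ℝ)} {y b z z' : V} {w' : V →ₗ[ℝ] ℝ}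
    (hb : ∀ p ∈ P, p b = 1)
    (hw' : w' ∈ P) (hwy' : w' y < 0) (hwz' : w' z' = 0)
    (hz : ∀ p ∈ P, p y < 0 → 0 ≤ p z)
    (hne : ∀ p ∈ P, ¬ p y < 0 → 0 < p y ∧ p z' ≠ 0)
    {a c β γ : ℝ} (ha : 0 ≤ a) (hc : 0 ≤ c) (hac : a ≠ 0 ∨ c ≠ 0) (hβ : 0 ≤ β)
    (e : a • z - c • z' = β • y + γ • b) :
    ∀ p ∈ P, p z < 0 → p z' < 0 := by
  have ev : ∀ p ∈ P, a * p z - c * p z' = β * p y + γ := by
    intro p hp
    have := congrArg p e
    simpa [hb p hp] using this
  have hγ : 0 ≤ γ := by
    have h1 := ev w' hw'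
    rw [hwz'] at h1
    have h2 := mul_nonneg ha (hz w' hw' hwy')
    have h3 : β * w' y ≤ 0 := mul_nonpos_of_nonneg_of_nonpos hβ hwy'.le
    linarith
  intro p hp hpz
  have hpy : ¬ p y < 0 := fun h => absurd (hz p hp h) (not_le.2 hpz)
  obtain ⟨hpy', hpz'⟩ := hne p hp hpy
  have h1 := ev p hp
  have h2 : 0 ≤ β * p y := mul_nonneg hβ hpy'.le
  have h3 : a * p z ≤ 0 := mul_nonpos_of_nonneg_of_nonpos ha hpz.le
  have h4 : c * p z' ≤ 0 := by linarith
  by_contra hcon
  have h5 : 0 < p z' := lt_of_le_of_ne (not_lt.1 hcon) (Ne.symm hpz')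
  have hc0 : c = 0 := by
    by_contra hc0
    have : 0 < c := lt_of_le_of_ne hc (Ne.symm hc0)
    nlinarith [mul_pos this h5]
  have ha0 : a ≠ 0 := by
    rcases hac with h | h
    · exact h
    · exact absurd hc0 h
  have : 0 < a := lt_of_le_of_ne ha (Ne.symm ha0)
  have h6 : a * p z < 0 := mul_neg_of_pos_of_neg this hpz
  rw [hc0] at h1
  linarith

/-- Among three vectors that are nonnegative on the functionals `p` with `p y < 0`, each of them
vanishing on one of these functionals, two are comparable, when the dimension is at most three. -/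
theorem exists_compare [FiniteDimensional ℝ V] (hV : Module.finrank ℝ V ≤ 3)
    {P : Set (V →ₗ[ℝ] ℝ)} {y b : V} {z : Fin 3 → V} {w : Fin 3 → (V →ₗ[ℝ] ℝ)}
    (hb : ∀ p ∈ P, p b = 1) (hy : ∀ p ∈ P, p y ≠ 0)
    (hw : ∀ i, w i ∈ P) (hwy : ∀ i, w i y < 0) (hwz : ∀ i, w i (z i) = 0)
    (hz : ∀ i, ∀ p ∈ P, p y < 0 → 0 ≤ p (z i))
    (hne : ∀ i, ∀ p ∈ P, ¬ p y < 0 → p (z i) ≠ 0) :
    ∃ i j, i ≠ j ∧ ∀ p ∈ P, p (z i) < 0 → p (z j) < 0 := by
  classical
  by_cases hdep : LinearIndependent ℝ ![y, b]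
  · -- the quotient by the span of `y` and `b` has dimension at most one
    set W : Submodule ℝ V := Submodule.span ℝ (Set.range ![y, b]) with hW
    have h2 : Module.finrank ℝ W = 2 := by
      rw [hW, finrank_span_eq_card hdep]
      simp
    have hq : Module.finrank ℝ (V ⧸ W) ≤ 1 := by
      have := Submodule.finrank_quotient_add_finrank W
      omega
    obtain ⟨v, hv⟩ := finrank_le_one_iff.1 hq
    choose c hc using fun i => hv (W.mkQ (z i))
    obtain ⟨i, j, hij, hcc⟩ := exists_mul_nonneg c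
    -- the coefficients
    obtain ⟨a, c', ha, hc', hac, hmem⟩ : ∃ a c' : ℝ, 0 ≤ a ∧ 0 ≤ c' ∧ (a ≠ 0 ∨ c' ≠ 0) ∧
        a • z i - c' • z j ∈ W := by
      by_cases h0 : c j = 0
      · by_cases h0' : c i = 0
        · refine ⟨1, 0, zero_le_one, le_rfl, Or.inl one_ne_zero, ?_⟩
          rw [one_smul, zero_smul, sub_zero, ← Submodule.ker_mkQ W, LinearMap.mem_ker, ← hc i, h0',
            zero_smul]
        · refine ⟨0, |c i|, le_rfl, abs_nonneg _, Or.inr (abs_ne_zero.2 h0'), ?_⟩
          rw [← Submodule.ker_mkQ W, LinearMap.mem_ker, map_sub, map_smul, map_smul, ← hc i,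
            ← hc j, h0]
          simp
      · refine ⟨|c j|, |c i|, abs_nonneg _, abs_nonneg _, Or.inl (abs_ne_zero.2 h0), ?_⟩
        rw [← Submodule.ker_mkQ W, LinearMap.mem_ker, map_sub, map_smul, map_smul, ← hc i,
            ← hc j, smul_smul, smul_smul, ← sub_smul]
        have : |c j| * c i - |c i| * c j = 0 := by
          rcases le_total 0 (c i) with hi | hi <;> rcases le_total 0 (c j) with hj | hj
          · rw [abs_of_nonneg hi, abs_of_nonneg hj]; ring
          · have h1 : c i * c j = 0 :=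
              le_antisymm (mul_nonpos_of_nonneg_of_nonpos hi hj) hcc
            have h2 : c i = 0 := (mul_eq_zero.1 h1).resolve_right h0
            simp [h2]
          · have h1 : c i * c j = 0 :=
              le_antisymm (mul_nonpos_of_nonpos_of_nonneg hi hj) hcc
            have h2 : c i = 0 := (mul_eq_zero.1 h1).resolve_right h0
            simp [h2]
          · rw [abs_of_nonpos hi, abs_of_nonpos hj]; ring
        rw [this, zero_smul]
    obtain ⟨β, γ, e⟩ : ∃ β γ : ℝ, a • z i - c' • z j = β • y + γ • b := by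
      rw [hW] at hmem
      have hr : Set.range ![y, b] = {y, b} := by
        rw [Matrix.range_cons_cons_empty]
      rw [hr, Submodule.mem_span_pair] at hmem
      obtain ⟨β, γ, e⟩ := hmem
      exact ⟨β, γ, e.symm⟩
    have hne' : ∀ i, ∀ p ∈ P, ¬ p y < 0 → 0 < p y ∧ p (z i) ≠ 0 := fun i p hp h =>
      ⟨lt_of_le_of_ne (not_lt.1 h) (Ne.symm (hy p hp)), hne i p hp h⟩
    rcases le_total 0 β with hβ | hβ
    · exact ⟨i, j, hij, compare_half hb (hw j) (hwy j) (hwz j) (hz i) (hne' j) ha hc' hac hβ e⟩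
    · refine ⟨j, i, hij.symm, compare_half hb (hw i) (hwy i) (hwz i) (hz j) (hne' i) hc' ha
        hac.symm (neg_nonneg.2 hβ) (γ := -γ) ?_⟩
      rw [neg_smul, neg_smul, ← neg_add, ← e]
      abel
  · -- all the functionals are negative on `y`
    have hbne : b ≠ 0 := by
      rintro rfl
      have := hb _ (hw 0)
      simp at this
    have hex : ∃ t : ℝ, y = t • b := by
      by_contra hcon
      push Not at hcon
      apply hdep
      rw [LinearIndependent.pair_iff]
      intro s t hst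
      by_cases hs : s = 0
      · subst hs
        rw [zero_smul, zero_add, smul_eq_zero] at hst
        exact ⟨rfl, hst.resolve_right hbne⟩
      · exfalso
        apply hcon (-(t / s))
        have : s⁻¹ • (s • y + t • b) = 0 := by rw [hst, smul_zero]
        rw [smul_add, smul_smul, inv_mul_cancel₀ hs, one_smul, smul_smul] at this
        rw [neg_smul, eq_neg_iff_add_eq_zero, div_eq_inv_mul]
        exact this
    obtain ⟨t, ht⟩ := hex
    have hval : ∀ p ∈ P, p y = t := by
      intro p hp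
      rw [ht, map_smul, hb p hp, smul_eq_mul, mul_one]
    have htneg : t < 0 := by rw [← hval _ (hw 0)]; exact hwy 0
    refine ⟨0, 1, by decide, fun p hp h => ?_⟩
    have := hz 0 p hp (by rw [hval p hp]; exact htneg)
    exact absurd h (not_lt.2 this)

end Pool.Agent.J4.H33.DM
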