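import Pool.Agent.H178R3.PosFixedDim

/-!
# Regions and points
-/

set_option autoImplicit false

open Set Pool.Agent.H178R3 Pool.Agent.H178R3.CentralArrangement Filter Topology

namespace Pool.Agent.J4.H33.DM

variable {d : ℕ} {A : CentralArrangement d} {B : A.Region} {b : Fin d → ℝ}
  {vec : Submodule ℝ (Fin d → ℝ) → (Fin d → ℝ)} (N : Normals A B b vec)

include N

/-- The region of a point off the hyperplanes. -/
theorem exists_region {x : Fin d → ℝ} (hx : ∀ h ∈ A.hyps, dotL (vec h) x ≠ 0) :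
    ∃ R : Pos A B, ∀ h ∈ A.hyps, (h ∈ sepSet B R ↔ dotL (vec h) x < 0) := by
  have hx' : x ∈ A.complement := by
    intro h hh hmem
    rw [← N.ker h hh, LinearMap.mem_ker] at hmem
    exact hx h hh hmem
  exact ⟨posOf B x hx', fun h hh => N.mem_iff (mem_posOf B x hx') hh⟩

/-- For every point `z` there is a region `R` such that `S(R)` is the set of the hyperplanes with
`p_h · z < 0`. -/
theorem exists_region_lt (z : Fin d → ℝ) :
    ∃ R : Pos A B, ∀ h ∈ A.hyps, (h ∈ sepSet B R ↔ dotL (vec h) z < 0) := by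
  have hev : ∀ᶠ ε in 𝓝[>] (0 : ℝ), ∀ h ∈ A.hyps, dotL (vec h) z + ε ≠ 0 ∧
      (dotL (vec h) z + ε < 0 ↔ dotL (vec h) z < 0) := by
    rw [Filter.eventually_all_finset]
    intro h hh
    rcases lt_or_ge (dotL (vec h) z) 0 with h0 | h0
    · have : ∀ᶠ ε in 𝓝[>] (0 : ℝ), ε < -dotL (vec h) z :=
        mem_nhdsWithin_of_mem_nhds (Iio_mem_nhds (by linarith))
      filter_upwards [this] with ε hε
      exact ⟨by linarith, by constructor <;> intro <;> linarith⟩
    · filter_upwards [self_mem_nhdsWithin] with ε hε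
      have hε : 0 < ε := hε
      exact ⟨by linarith, by constructor <;> intro <;> linarith⟩
  obtain ⟨ε, hε⟩ := hev.exists
  have hval : ∀ h ∈ A.hyps, dotL (vec h) (z + ε • b) = dotL (vec h) z + ε := by
    intro h hh
    rw [map_add, map_smul, N.one h hh]
    simp
  obtain ⟨R, hR⟩ := exists_region N (x := z + ε • b) (fun h hh => by
    rw [hval h hh]; exact (hε h hh).1)
  exact ⟨R, fun h hh => by rw [hR h hh, hval h hh, (hε h hh).2]⟩

/-- For every point `z` there is a region `R` such that `S(R)` is the set of the hyperplanes with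
`p_h · z ≤ 0`. -/
theorem exists_region_le (z : Fin d → ℝ) :
    ∃ R : Pos A B, ∀ h ∈ A.hyps, (h ∈ sepSet B R ↔ dotL (vec h) z ≤ 0) := by
  have hev : ∀ᶠ ε in 𝓝[>] (0 : ℝ), ∀ h ∈ A.hyps, dotL (vec h) z - ε ≠ 0 ∧
      (dotL (vec h) z - ε < 0 ↔ dotL (vec h) z ≤ 0) := by
    rw [Filter.eventually_all_finset]
    intro h hh
    rcases lt_or_ge 0 (dotL (vec h) z) with h0 | h0
    · have : ∀ᶠ ε in 𝓝[>] (0 : ℝ), ε < dotL (vec h) z :=
        mem_nhdsWithin_of_mem_nhds (Iio_mem_nhds (by linarith))
      filter_upwards [this] with ε hε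
      exact ⟨by linarith, by constructor <;> intro <;> linarith⟩
    · filter_upwards [self_mem_nhdsWithin] with ε hε
      have hε : 0 < ε := hε
      exact ⟨by linarith, by constructor <;> intro <;> linarith⟩
  obtain ⟨ε, hε⟩ := hev.exists
  have hval : ∀ h ∈ A.hyps, dotL (vec h) (z - ε • b) = dotL (vec h) z - ε := by
    intro h hh
    rw [map_sub, map_smul, N.one h hh]
    simp
  obtain ⟨R, hR⟩ := exists_region N (x := z - ε • b) (fun h hh => by
    rw [hval h hh]; exact (hε h hh).1)
  exact ⟨R, fun h hh => by rw [hR h hh, hval h hh, (hε h hh).2]⟩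

/-- Every region contains a point at which the normals take distinct values. -/
theorem exists_generic (R : Pos A B) : ∃ z : Fin d → ℝ,
    (∀ h ∈ A.hyps, (h ∈ sepSet B R ↔ dotL (vec h) z < 0)) ∧
      ∀ h ∈ A.hyps, ∀ k ∈ A.hyps, h ≠ k → dotL (vec h) z ≠ dotL (vec k) z := by
  classical
  obtain ⟨x, hx⟩ := Region.nonempty R
  -- a generic direction
  obtain ⟨g, hg⟩ : ∃ g : Fin d → ℝ, ∀ h ∈ A.hyps, ∀ k ∈ A.hyps, h ≠ k →
      dotL (vec h) g ≠ dotL (vec k) g := by
    obtain ⟨g, hg⟩ := Module.Dual.exists_forall_ne_zero_of_forall_exists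
      (ι := {q : A.hyps × A.hyps // q.1 ≠ q.2}) (K := ℝ) (M := Fin d → ℝ)
      (fun q => dotL (vec q.1.1) - dotL (vec q.1.2)) (by
        rintro ⟨⟨⟨h, hh⟩, ⟨k, hk⟩⟩, hne⟩
        by_contra hcon
        push Not at hcon
        apply hne
        apply Subtype.ext
        apply N.inj hh hk
        funext i
        have := hcon (Pi.single i 1)
        simpa [dotL_apply, Pi.single_apply, sub_eq_zero] using this)
    refine ⟨g, fun h hh k hk hhk => ?_⟩
    have := hg ⟨(⟨h, hh⟩, ⟨k, hk⟩), fun e => hhk (congrArg Subtype.val e)⟩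
    exact sub_ne_zero.1 this
  have hev : ∀ᶠ ε in 𝓝[>] (0 : ℝ),
      (∀ h ∈ A.hyps, (dotL (vec h) x + ε * dotL (vec h) g < 0 ↔ dotL (vec h) x < 0)) ∧
      ∀ h ∈ A.hyps, ∀ k ∈ A.hyps, h ≠ k →
        dotL (vec h) x + ε * dotL (vec h) g ≠ dotL (vec k) x + ε * dotL (vec k) g := by
    refine Filter.Eventually.and ?_ ?_
    · rw [Filter.eventually_all_finset]
      intro h hh
      have hne : dotL (vec h) x ≠ 0 := by
        intro h0
        apply R.subset hx h hh
        rw [← N.ker h hh, LinearMap.mem_ker, h0]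
      have hcont : Tendsto (fun ε : ℝ => dotL (vec h) x + ε * dotL (vec h) g) (𝓝[>] 0)
          (𝓝 (dotL (vec h) x)) := by
        have : Continuous (fun ε : ℝ => dotL (vec h) x + ε * dotL (vec h) g) := by fun_prop
        have h2 := this.tendsto 0
        rw [zero_mul, add_zero] at h2
        exact h2.mono_left nhdsWithin_le_nhds
      rcases lt_or_gt_of_ne hne with h0 | h0
      · filter_upwards [hcont (Iio_mem_nhds h0)] with ε hε
        exact ⟨fun _ => h0, fun _ => hε⟩
      · filter_upwards [hcont (Ioi_mem_nhds h0)] with ε hε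
        have hε : 0 < dotL (vec h) x + ε * dotL (vec h) g := hε
        exact ⟨fun h' => absurd h' (not_lt.2 hε.le), fun h' => absurd h' (not_lt.2 h0.le)⟩
    · rw [Filter.eventually_all_finset]
      intro h hh
      rw [Filter.eventually_all_finset]
      intro k hk
      by_cases hhk : h = k
      · filter_upwards with ε h'
        exact absurd hhk h'
      · have hne := sub_ne_zero.2 (hg h hh k hk hhk)
        set r : ℝ := -(dotL (vec h) x - dotL (vec k) x) / (dotL (vec h) g - dotL (vec k) g) with hr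
        have hr' : ∀ᶠ ε in 𝓝[>] (0 : ℝ), ε ≠ r := by
          by_cases hr0 : r = 0
          · filter_upwards [self_mem_nhdsWithin] with ε hε
            rw [hr0]
            exact ne_of_gt hε
          · exact mem_nhdsWithin_of_mem_nhds (isOpen_ne.mem_nhds (Ne.symm hr0))
        filter_upwards [hr'] with ε hε _ he
        apply hε
        rw [hr, eq_div_iff hne]
        linarith
  obtain ⟨ε, hε1, hε2⟩ := hev.exists
  have hval : ∀ h, dotL (vec h) (x + ε • g) = dotL (vec h) x + ε * dotL (vec h) g := by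
    intro h
    rw [map_add, map_smul, smul_eq_mul]
  refine ⟨x + ε • g, fun h hh => ?_, fun h hh k hk hhk => ?_⟩
  · rw [hval, hε1 h hh]
    exact N.mem_iff hx hh
  · rw [hval, hval]
    exact hε2 h hh k hk hhk

end Pool.Agent.J4.H33.DM
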