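import Pool.Agent.J4.H33.DM.Terms
import Pool.Agent.J4.H33.DM.Planar
import Pool.Agent.J4.H33.DM.Points

/-!
# The identity holds in dimension at most three
-/

set_option autoImplicit false

open Set R761.BipLat Pool.Agent.H178R3 Pool.Agent.H178R3.CentralArrangement

namespace Pool.Agent.J4.H33.DM

variable {d : ℕ} {A : CentralArrangement d} {B : A.Region}

theorem mem_left_inf (c c' : DedekindCut (Pos A B)) (R : Pos A B) :
    R ∈ (c ⊓ c').left ↔ R ∈ c.left ∧ R ∈ c'.left := by
  show R ∈ (c ⊓ c').extent ↔ _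
  rw [Concept.extent_inf]
  exact Iff.rfl

theorem mem_right_sup (c c' : DedekindCut (Pos A B)) (R : Pos A B) :
    R ∈ (c ⊔ c').right ↔ R ∈ c.right ∧ R ∈ c'.right := by
  show R ∈ (c ⊔ c').intent ↔ _
  rw [Concept.intent_sup]
  exact Iff.rfl

theorem mem_right_of_le {c c' : DedekindCut (Pos A B)} (h : c ≤ c') {R : Pos A B}
    (hR : R ∈ c'.right) : R ∈ c.right :=
  Concept.intent_subset_intent_iff.2 h hR

theorem opn_mono {c c' : DedekindCut (Pos A B)} (h : c ≤ c') : opn c ⊆ opn c' := by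
  rintro k ⟨R, hR, hk⟩
  exact ⟨R, h hR, hk⟩

theorem mem_right_supL (v : ℕ → DedekindCut (Pos A B)) (l : List LTerm) (e : LTerm)
    (R : Pos A B) : R ∈ ((supL l e).eval v).right ↔
      (∀ t ∈ l, R ∈ (t.eval v).right) ∧ R ∈ (e.eval v).right := by
  induction l with
  | nil => simp [supL]
  | cons a l ih =>
    have h : (supL (a :: l) e).eval v = a.eval v ⊔ (supL l e).eval v := rfl
    rw [h, mem_right_sup, ih, List.forall_mem_cons, and_assoc]

theorem mem_right_tX (v : ℕ → DedekindCut (Pos A B)) (i l : ℕ) (R : Pos A B)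
    (h : ∀ k < 4, R ∈ ((tY i l k).eval v).right) : R ∈ ((tX i l).eval v).right := by
  rw [tX, mem_right_supL]
  refine ⟨?_, h 3 (by omega)⟩
  intro t ht
  obtain ⟨k, hk, rfl⟩ := List.mem_map.1 ht
  exact h k (by have := List.mem_range.1 hk; omega)

section

variable {b : Fin d → ℝ} {vec : Submodule ℝ (Fin d → ℝ) → (Fin d → ℝ)} (N : Normals A B b vec)

include N

theorem cls_hull (c : DedekindCut (Pos A B)) {G : Set (Submodule ℝ (Fin d → ℝ))}
    (hG : G ⊆ A.hyps) (h : ∀ R : Pos A B, G ⊆ sepSet B R → R ∈ c.right)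
    {w : Submodule ℝ (Fin d → ℝ)} (hw : w ∈ cls c) : vec w ∈ convexHull ℝ (vec '' G) := by
  by_contra hcon
  obtain ⟨x, hx, hxu, hxh⟩ := N.separation hG hw.1 hcon
  have h1 : posOf B x hx ∈ c.right :=
    h _ (fun k hk => (N.mem_iff (mem_posOf B x hx) (hG hk)).2 (hxu k hk))
  have := (N.mem_iff (mem_posOf B x hx) hw.1).1 (hw.2 _ h1)
  linarith

omit N in
/-- The selection lemma: by Carathéodory's theorem one of the four sets can be omitted. -/
theorem select (hd : d ≤ 3) {w : Submodule ℝ (Fin d → ℝ)} {z : Fin d → ℝ}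
    (hwz : dotL (vec w) z = 0)
    (hz : ∀ h ∈ A.hyps, h ≠ w → dotL (vec h) z ≠ 0)
    {G : ℕ → Set (Submodule ℝ (Fin d → ℝ))} (hG : ∀ k < 4, G k ⊆ A.hyps)
    (hull : vec w ∈ convexHull ℝ (vec '' {h | ∃ k < 4, h ∈ G k}))
    {T0 : Set (Submodule ℝ (Fin d → ℝ))}
    (hT0 : ∀ h ∈ A.hyps, dotL (vec h) z < 0 → h ∈ T0) :
    ∃ a < 4, vec w ∈ convexHull ℝ (vec '' (T0 ∪ {h | ∃ k < 4, k ≠ a ∧ h ∈ G k})) := by
  classical
  rw [convexHull_eq_union] at hull
  simp only [mem_iUnion] at hull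
  obtain ⟨t, htG, hai, hwt⟩ := hull
  have hcard : t.card ≤ 4 := by
    have := hai.card_le_finrank_succ
    have h2 := Submodule.finrank_le (vectorSpan ℝ (Set.range ((↑) : t → Fin d → ℝ)))
    simp only [Fintype.card_coe, Module.finrank_fintype_fun_eq_card, Fintype.card_fin] at this h2
    omega
  have hsel : ∀ e ∈ t, ∃ k : ℕ, ∃ h : Submodule ℝ (Fin d → ℝ), k < 4 ∧ h ∈ G k ∧ vec h = e := by
    intro e he
    obtain ⟨h, ⟨k, hk, hh⟩, rfl⟩ := htG he
    exact ⟨k, h, hk, hh, rfl⟩
  choose! κ η hκ hη hvec using hsel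
  by_cases hwmem : vec w ∈ t
  · refine ⟨if κ (vec w) = 0 then 1 else 0, by split_ifs <;> omega, ?_⟩
    apply subset_convexHull
    refine ⟨η (vec w), Or.inr ⟨κ (vec w), hκ _ hwmem, ?_, hη _ hwmem⟩, hvec _ hwmem⟩
    split_ifs with h0
    · omega
    · exact h0
  · -- some point of `t` is negative on `z`
    obtain ⟨e, het, hez⟩ : ∃ e ∈ t, dotL e z < 0 := by
      by_contra hcon
      push Not at hcon
      have hpos : ∀ e ∈ t, 0 < dotL e z := by
        intro e he
        have hne : dotL e z ≠ 0 := by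
          have := hz (η e) (hG _ (hκ e he) (hη e he)) (by
            intro h0
            apply hwmem
            rw [← h0, hvec e he]
            exact he)
          rwa [hvec e he] at this
        exact lt_of_le_of_ne (hcon e he) (Ne.symm hne)
      have := dotL_neg_of_mem_convexHull (x := -z) (s := (t : Set (Fin d → ℝ))) (fun e he => by
        rw [map_neg]
        have := hpos e he
        linarith) hwt
      rw [map_neg, hwz] at this
      linarith
    -- an index that is not used by the other points of `t`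
    obtain ⟨a, ha, hna⟩ : ∃ a ∈ Finset.range 4, a ∉ (t.erase e).image κ := by
      by_contra hcon
      push Not at hcon
      have h1 := Finset.card_le_card (s := Finset.range 4) (t := (t.erase e).image κ) hcon
      have h2 := Finset.card_image_le (s := t.erase e) (f := κ)
      rw [Finset.card_erase_of_mem het] at h2
      rw [Finset.card_range] at h1
      have := Finset.card_pos.2 ⟨e, het⟩
      omega
    refine ⟨a, Finset.mem_range.1 ha, ?_⟩
    refine convexHull_mono ?_ hwt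
    intro e' he'
    refine ⟨η e', ?_, hvec e' he'⟩
    by_cases hee : e' = e
    · left
      apply hT0 _ (hG _ (hκ e' he') (hη e' he'))
      rw [hvec e' he', hee]
      exact hez
    · right
      refine ⟨κ e', hκ e' he', ?_, hη e' he'⟩
      rintro rfl
      exact hna (Finset.mem_image_of_mem κ (Finset.mem_erase.2 ⟨hee, he'⟩))

/-- The points attached to a cut. -/
theorem exists_point (c : DedekindCut (Pos A B)) (RC : Pos A B) (hRC : RC ∉ c.right) :
    ∃ (z : Fin d → ℝ) (w : Submodule ℝ (Fin d → ℝ)), w ∈ A.hyps ∧ w ∉ sepSet B RC ∧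
      dotL (vec w) z = 0 ∧
      (∀ h ∈ A.hyps, h ∉ sepSet B RC → 0 ≤ dotL (vec h) z) ∧
      (∀ h ∈ A.hyps, h ≠ w → dotL (vec h) z ≠ 0) ∧
      ∀ h ∈ A.hyps, dotL (vec h) z ≤ 0 → h ∈ cls c := by
  classical
  obtain ⟨R, hR, hle⟩ : ∃ R ∈ c.left, ¬ R ≤ RC := by
    by_contra hcon
    push Not at hcon
    apply hRC
    rw [← DedekindCut.upperBounds_left, mem_upperBounds]
    exact hcon
  rw [le_iff, not_subset] at hle
  obtain ⟨q, hqR, hqC⟩ := hle
  obtain ⟨z0, hz0, hgen⟩ := exists_generic N R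
  obtain ⟨w, hw, hmin⟩ := Finset.exists_min_image (A.hyps.filter fun h => h ∉ sepSet B RC)
    (fun h => dotL (vec h) z0) ⟨q, Finset.mem_filter.2 ⟨hqR.1, hqC⟩⟩
  rw [Finset.mem_filter] at hw
  have hwneg : dotL (vec w) z0 < 0 :=
    (hmin q (Finset.mem_filter.2 ⟨hqR.1, hqC⟩)).trans_lt ((hz0 q hqR.1).1 hqR)
  have hval : ∀ h ∈ A.hyps, dotL (vec h) (z0 - (dotL (vec w) z0) • b) =
      dotL (vec h) z0 - dotL (vec w) z0 := by
    intro h hh
    rw [map_sub, map_smul, N.one h hh, smul_eq_mul, mul_one]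
  refine ⟨z0 - (dotL (vec w) z0) • b, w, hw.1, hw.2, ?_, ?_, ?_, ?_⟩
  · rw [hval w hw.1, sub_self]
  · intro h hh hhC
    rw [hval h hh]
    exact sub_nonneg.2 (hmin h (Finset.mem_filter.2 ⟨hh, hhC⟩))
  · intro h hh hhw
    rw [hval h hh]
    exact sub_ne_zero.2 (hgen h hh w hw.1 hhw)
  · intro h hh hle
    rw [hval h hh] at hle
    apply (mem_left_iff c R).1 hR
    rw [hz0 h hh]
    linarith

theorem holds (hd : d ≤ 3) (v : ℕ → DedekindCut (Pos A B)) : tS.eval v ≤ tT.eval v := by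
  classical
  by_contra hST
  obtain ⟨Rs, hRs, hRsT⟩ : ∃ R ∈ (tS.eval v).left, R ∉ (tT.eval v).left := by
    by_contra hcon
    push Not at hcon
    exact hST hcon
  obtain ⟨RC, hRC, hle⟩ : ∃ R ∈ (tT.eval v).right, ¬ Rs ≤ R := by
    by_contra hcon
    push Not at hcon
    apply hRsT
    rw [← DedekindCut.lowerBounds_right, mem_lowerBounds]
    exact hcon
  obtain ⟨-, hu, ht⟩ := (tT_le v (tT.eval v)).1 le_rfl
  have hxi : ∀ i < 3, RC ∉ ((tx i).eval v).right := by
    intro i hi hcon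
    apply hle
    have h1 : Rs ∈ ((tx i).eval v ⊔ tu.eval v).left := tS_le v hi hRs
    rw [← DedekindCut.lowerBounds_right, mem_lowerBounds] at h1
    exact h1 RC ((mem_right_sup _ _ _).2 ⟨hcon, mem_right_of_le hu hRC⟩)
  choose z w hwh hwC hwz hzC hzne hzcls using
    fun i : Fin 3 => exists_point N ((tx i).eval v) RC (hxi i i.2)
  -- the point of the region `RC`
  obtain ⟨y, hy⟩ : ∃ y : Fin d → ℝ, ∀ h ∈ A.hyps, dotL (vec h) y ≠ 0 ∧
      (dotL (vec h) y < 0 ↔ h ∉ sepSet B RC) := by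
    obtain ⟨x, hx⟩ := Region.nonempty RC
    refine ⟨-x, fun h hh => ?_⟩
    have hne : dotL (vec h) x ≠ 0 := by
      intro h0
      apply Region.subset RC hx h hh
      rw [← N.ker h hh, LinearMap.mem_ker, h0]
    rw [map_neg, N.mem_iff hx hh]
    refine ⟨neg_ne_zero.2 hne, ?_⟩
    constructor
    · intro h1
      exact not_lt.2 (by linarith)
    · intro h1
      have := lt_of_le_of_ne (not_lt.1 h1) (Ne.symm hne)
      linarith
  obtain ⟨i, j, hij, hsub⟩ := exists_compare (V := Fin d → ℝ) (by simpa using hd)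
    (P := {p | ∃ h ∈ A.hyps, p = dotL (vec h)}) (y := y) (b := b) (z := z)
    (w := fun i => dotL (vec (w i)))
    (by rintro _ ⟨h, hh, rfl⟩; exact N.one h hh)
    (by rintro _ ⟨h, hh, rfl⟩; exact (hy h hh).1)
    (fun i => ⟨w i, hwh i, rfl⟩)
    (fun i => ((hy _ (hwh i)).2).2 (hwC i))
    hwz
    (by rintro i _ ⟨h, hh, rfl⟩ h1; exact hzC i h hh (((hy h hh).2).1 h1))
    (by
      rintro i _ ⟨h, hh, rfl⟩ h1
      apply hzne i h hh
      rintro rfl
      exact h1 (((hy _ hh).2).2 (hwC i)))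
  -- the hyperplanes that are negative on `z i` are in the open set of `t0`
  have hU : ∀ h ∈ A.hyps, dotL (vec h) (z i) < 0 → h ∈ opn (t0.eval v) := by
    intro h hh hneg
    obtain ⟨R, hR⟩ := exists_region_lt N (z i)
    have hmem : R ∈ ((tx i).eval v ⊓ (tx j).eval v).left := by
      rw [mem_left_inf, mem_left_iff, mem_left_iff]
      constructor
      · intro k hk
        exact hzcls i k hk.1 ((hR k hk.1).1 hk).le
      · intro k hk
        exact hzcls j k hk.1 (hsub _ ⟨k, hk.1, rfl⟩ ((hR k hk.1).1 hk)).le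
    have hle0 := inf_le_t0 v i.2 j.2 (fun e => hij (Fin.ext e))
    exact ⟨R, hle0 hmem, (hR h hh).2 hneg⟩
  -- the selection
  have hsel : ∀ l < 2, ∃ a < 4, w i ∈ cls ((tO i l a).eval v) := by
    intro l hl
    have hwx : w i ∈ cls ((tx i).eval v) := hzcls i _ (hwh i) (hwz i).le
    have hwX : w i ∈ cls ((tX i l).eval v) := by
      refine cls_mono ?_ hwx
      interval_cases l
      · exact inf_le_left
      · exact inf_le_right
    have hhull := cls_hull N ((tX i l).eval v)
      (G := {h | ∃ k < 4, h ∈ opn ((tY i l k).eval v)})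
      (by rintro h ⟨k, _, hk⟩; exact opn_subset_hyps _ hk)
      (by
        intro R hR
        apply mem_right_tX
        intro k hk
        rw [mem_right_iff]
        exact fun h hh => hR ⟨k, hk, hh⟩) hwX
    obtain ⟨a, ha, hmem⟩ := select hd (hwz i) (hzne i)
      (G := fun k => opn ((tY i l k).eval v)) (fun k _ => opn_subset_hyps _) hhull hU
    refine ⟨a, ha, mem_cls_of_hull N _ (hwh i) (convexHull_mono (image_mono ?_) hmem)⟩
    obtain ⟨h1, h2⟩ := (tO_le v ((tO i l a).eval v) i l a).1 le_rfl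
    rintro h (hh | ⟨k, hk, hka, hh⟩)
    · exact opn_mono h1 hh
    · exact opn_mono (h2 k hk hka) hh
  obtain ⟨a, ha, hwa⟩ := hsel 0 (by omega)
  obtain ⟨b', hb', hwb⟩ := hsel 1 (by omega)
  have ht0 : ∀ l a', t0.eval v ≤ (tO i l a').eval v := fun l a' =>
    ((tO_le v ((tO i l a').eval v) i l a').1 le_rfl).1
  have hsubO : ∀ l a', w i ∈ cls ((tO i l a').eval v) → ∀ h ∈ A.hyps, dotL (vec h) (z i) ≤ 0 →
      h ∈ cls ((tO i l a').eval v) := by
    intro l a' hwl h hh hle'
    rcases hle'.lt_or_eq with h0 | h0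
    · exact cls_mono (ht0 l a') (opn_subset_cls _ (hU h hh h0))
    · by_cases hhw : h = w i
      · rw [hhw]; exact hwl
      · exact absurd h0 (hzne i h hh hhw)
  obtain ⟨R, hR⟩ := exists_region_le N (z i)
  have hRM : R ∈ ((tM i a b').eval v).left := by
    show R ∈ ((tO i 0 a).eval v ⊓ (tO i 1 b').eval v).left
    rw [mem_left_inf, mem_left_iff, mem_left_iff]
    exact ⟨fun k hk => hsubO 0 a hwa k hk.1 ((hR k hk.1).1 hk),
      fun k hk => hsubO 1 b' hwb k hk.1 ((hR k hk.1).1 hk)⟩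
  have hRT : R ∈ (tT.eval v).left :=
    ((tT_le v (tT.eval v)).1 le_rfl).1 i i.2 a ha b' hb' hRM
  rw [← DedekindCut.lowerBounds_right, mem_lowerBounds] at hRT
  exact hwC i (hRT RC hRC ((hR _ (hwh i)).2 (hwz i).le))

end

/-- The identity holds in the completions of the posets of regions in dimension at most three. -/
theorem identity (hd : d ≤ 3) (v : ℕ → DedekindCut (Pos A B)) :
    (LTerm.inf tS tT).eval v = tS.eval v := by
  obtain ⟨b, vec, N⟩ := exists_normals B
  exact inf_eq_left.2 (holds N hd v)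

end Pool.Agent.J4.H33.DM
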