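import Pool.Agent.R761.BipLat.Defs

/-!
# A lattice identity

The terms of an identity `S ≤ T` that holds in the completions of the posets of regions of all
central arrangements of dimension at most three, and a lattice in which it fails.
-/

set_option autoImplicit false

namespace Pool.Agent.J4.H33.DM

open R761.BipLat

/-- The join of the terms in a list and of one more term. -/
def supL (l : List LTerm) (e : LTerm) : LTerm := l.foldr .sup e

theorem eval_supL_le {L : Type*} [Lattice L] (v : ℕ → L) (l : List LTerm) (e : LTerm) (z : L) :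
    (supL l e).eval v ≤ z ↔ (∀ t ∈ l, t.eval v ≤ z) ∧ e.eval v ≤ z := by
  induction l with
  | nil => simp [supL]
  | cons a l ih =>
    have h : (supL (a :: l) e).eval v = a.eval v ⊔ (supL l e).eval v := rfl
    rw [h, sup_le_iff, ih, List.forall_mem_cons, and_assoc]

/-- The variable `u`. -/
def tu : LTerm := .var 0

/-- The variable `y i l k`. -/
def tY (i l k : ℕ) : LTerm := .var (1 + 8 * i + 4 * l + k)

/-- The join of the `y i l k`, `k < 4`. -/
def tX (i l : ℕ) : LTerm := supL ((List.range 3).map (tY i l)) (tY i l 3)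

/-- The meet of `X i 0` and `X i 1`. -/
def tx (i : ℕ) : LTerm := .inf (tX i 0) (tX i 1)

/-- The join of the meets of two of the `x i`, `i < 3`. -/
def t0 : LTerm := .sup (.sup (.inf (tx 0) (tx 1)) (.inf (tx 0) (tx 2))) (.inf (tx 1) (tx 2))

/-- The join of `t0` and the `y i l k`, `k < 4`, `k ≠ a`. -/
def tO (i l a : ℕ) : LTerm := supL (((List.range 4).filter (· ≠ a)).map (tY i l)) t0

/-- The meet of `O i 0 a` and `O i 1 b`. -/
def tM (i a b : ℕ) : LTerm := .inf (tO i 0 a) (tO i 1 b)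

/-- The right side of the identity. -/
def tT : LTerm :=
  supL ((List.range 3).flatMap fun i => (List.range 4).flatMap fun a =>
    (List.range 4).map fun b => tM i a b) (.sup tu t0)

/-- The left side of the identity. -/
def tS : LTerm := .inf (.inf (.sup (tx 0) tu) (.sup (tx 1) tu)) (.sup (tx 2) tu)

section

variable {L : Type*} [Lattice L] (v : ℕ → L) (z : L)

theorem tX_le (i l : ℕ) : (tX i l).eval v ≤ z ↔ ∀ k < 4, (tY i l k).eval v ≤ z := by
  rw [tX, eval_supL_le]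
  simp only [List.mem_map, List.mem_range, forall_exists_index, and_imp,
    forall_apply_eq_imp_iff₂]
  constructor
  · rintro ⟨h, h'⟩ k hk
    rcases Nat.lt_or_ge k 3 with h3 | h3
    · exact h k h3
    · obtain rfl : k = 3 := by omega
      exact h'
  · intro h
    exact ⟨fun k hk => h k (by omega), h 3 (by omega)⟩

theorem tO_le (i l a : ℕ) : (tO i l a).eval v ≤ z ↔
    t0.eval v ≤ z ∧ ∀ k < 4, k ≠ a → (tY i l k).eval v ≤ z := by
  rw [tO, eval_supL_le]
  rw [and_comm]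
  refine and_congr_right fun _ => ?_
  constructor
  · intro h k hk hka
    exact h _ (List.mem_map.2 ⟨k, by simp [hk, hka], rfl⟩)
  · intro h t ht
    obtain ⟨k, hk, rfl⟩ := List.mem_map.1 ht
    simp only [List.mem_filter, List.mem_range, decide_eq_true_eq] at hk
    exact h k hk.1 hk.2

theorem tT_le : tT.eval v ≤ z ↔
    (∀ i < 3, ∀ a < 4, ∀ b < 4, (tM i a b).eval v ≤ z) ∧ tu.eval v ≤ z ∧ t0.eval v ≤ z := by
  rw [tT, eval_supL_le]
  simp only [List.mem_flatMap, List.mem_map, List.mem_range, LTerm.eval, sup_le_iff]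
  refine and_congr ?_ Iff.rfl
  constructor
  · intro h i hi a ha b hb
    exact h _ ⟨i, hi, a, ha, b, hb, rfl⟩
  · rintro h _ ⟨i, hi, a, ha, b, hb, rfl⟩
    exact h i hi a ha b hb

theorem t0_le : t0.eval v ≤ z ↔
    (tx 0).eval v ⊓ (tx 1).eval v ≤ z ∧ (tx 0).eval v ⊓ (tx 2).eval v ≤ z ∧
      (tx 1).eval v ⊓ (tx 2).eval v ≤ z := by
  simp only [t0, LTerm.eval, sup_le_iff, and_assoc]

theorem inf_le_t0 {i j : ℕ} (hi : i < 3) (hj : j < 3) (hij : i ≠ j) :
    (tx i).eval v ⊓ (tx j).eval v ≤ t0.eval v := by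
  obtain ⟨h1, h2, h3⟩ := (t0_le v (t0.eval v)).1 le_rfl
  interval_cases i <;> interval_cases j <;>
    first
    | exact absurd rfl hij
    | exact h1
    | exact h2
    | exact h3
    | (rw [inf_comm]; exact h1)
    | (rw [inf_comm]; exact h2)
    | (rw [inf_comm]; exact h3)

theorem tS_le {i : ℕ} (hi : i < 3) : tS.eval v ≤ (tx i).eval v ⊔ tu.eval v := by
  have h : tS.eval v = (((tx 0).eval v ⊔ tu.eval v) ⊓ ((tx 1).eval v ⊔ tu.eval v)) ⊓
      ((tx 2).eval v ⊔ tu.eval v) := rfl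
  rw [h]
  interval_cases i
  · exact inf_le_left.trans inf_le_left
  · exact inf_le_left.trans inf_le_right
  · exact inf_le_right

theorem le_tS (h : ∀ i < 3, z ≤ (tx i).eval v ⊔ tu.eval v) : z ≤ tS.eval v :=
  le_inf (le_inf (h 0 (by omega)) (h 1 (by omega))) (h 2 (by omega))

end

/-! ### A lattice in which the identity fails -/

/-- The closed sets of the closure space. -/
def IsCl (A : Set ℕ) : Prop :=
  (∀ i < 3, ∀ l < 2, (∀ k < 4, 1 + 8 * i + 4 * l + k ∈ A) → 25 + i ∈ A) ∧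
    ∀ i < 3, 25 + i ∈ A → 0 ∈ A → 28 ∈ A

/-- The closed sets, as a type. -/
def Cl : Type := {A : Set ℕ // IsCl A}

instance : PartialOrder Cl := inferInstanceAs (PartialOrder {A : Set ℕ // IsCl A})

instance : InfSet Cl where
  sInf s := ⟨⋂ A ∈ s, A.1, by
    constructor
    · intro i hi l hl h
      simp only [Set.mem_iInter] at h ⊢
      exact fun A hA => A.2.1 i hi l hl fun k hk => h k hk A hA
    · intro i hi h1 h2
      simp only [Set.mem_iInter] at h1 h2 ⊢
      exact fun A hA => A.2.2 i hi (h1 A hA) (h2 A hA)⟩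

theorem Cl.isGLB (s : Set Cl) : IsGLB s (sInf s) := by
  constructor
  · intro A hA x hx
    have : x ∈ ⋂ A ∈ s, A.1 := hx
    simp only [Set.mem_iInter] at this
    exact this A hA
  · intro B hB x hx
    show x ∈ ⋂ A ∈ s, A.1
    simp only [Set.mem_iInter]
    exact fun A hA => hB hA hx

instance : CompleteLattice Cl := completeLatticeOfInf Cl Cl.isGLB

theorem Cl.le_iff (A B : Cl) : A ≤ B ↔ A.1 ⊆ B.1 := Iff.rfl

/-- One-element sets are closed. -/
def Cl.pt (n : ℕ) : Cl := ⟨{n}, by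
  constructor
  · intro i hi l hl h
    have h0 := h 0 (by omega)
    have h1 := h 1 (by omega)
    simp only [Set.mem_singleton_iff] at h0 h1
    omega
  · intro i hi h1 h2
    simp only [Set.mem_singleton_iff] at h1 h2
    omega⟩

theorem Cl.pt_le (n : ℕ) (A : Cl) : Cl.pt n ≤ A ↔ n ∈ A.1 := Set.singleton_subset_iff

theorem Cl.bot_eq : (⊥ : Cl).1 = ∅ := by
  have h : (⊥ : Cl) ≤ ⟨∅, by
    constructor
    · intro i hi l hl h
      exact absurd (h 0 (by omega)) (Set.notMem_empty _)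
    · intro i hi h
      exact absurd h (Set.notMem_empty _)⟩ := bot_le
  exact Set.subset_eq_empty h rfl

/-- The closed set of the `y i l k`, `k < 4`, and of the point `25 + i`. -/
def zX (i l : ℕ) (hl : l < 2) : Cl :=
  ⟨{n | (∃ k < 4, n = 1 + 8 * i + 4 * l + k) ∨ n = 25 + i}, by
    constructor
    · intro i' hi' l' hl' h'
      have h0 := h' 0 (by omega)
      simp only [Set.mem_ofPred] at h0 ⊢
      right
      rcases h0 with ⟨k, hk, h0⟩ | h0 <;> omega
    · intro i' hi' h1 h2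
      simp only [Set.mem_ofPred] at h2
      rcases h2 with ⟨k, hk, h2⟩ | h2 <;> omega⟩

/-- The closed set of the `y i l k`, `k < 4`, `k ≠ a`. -/
def zO (i l a : ℕ) (hl : l < 2) (ha : a < 4) (hi : i < 3) : Cl :=
  ⟨{n | ∃ k < 4, k ≠ a ∧ n = 1 + 8 * i + 4 * l + k}, by
    constructor
    · intro i' hi' l' hl' h'
      obtain ⟨k0, hk0, hka0, e0⟩ := h' a ha
      omega
    · rintro i' hi' h1 ⟨k, hk, hka, h2⟩
      omega⟩

/-- The identity fails in the lattice of closed sets. -/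
theorem fails : (LTerm.inf tS tT).eval Cl.pt ≠ tS.eval Cl.pt := by
  intro h
  have hST : tS.eval Cl.pt ≤ tT.eval Cl.pt := inf_eq_left.1 h
  -- upper bound of `T`
  have hX : ∀ i < 3, ∀ l, (hl : l < 2) → (tX i l).eval Cl.pt ≤ zX i l hl := by
    intro i hi l hl
    rw [tX_le]
    intro k hk
    exact (Cl.pt_le _ _).2 (Or.inl ⟨k, hk, rfl⟩)
  have hx : ∀ i < 3, (tx i).eval Cl.pt ≤ Cl.pt (25 + i) := by
    intro i hi n hn
    have h1 : n ∈ ((tX i 0).eval Cl.pt).1 := (inf_le_left : (tx i).eval Cl.pt ≤ _) hn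
    have h2 : n ∈ ((tX i 1).eval Cl.pt).1 := (inf_le_right : (tx i).eval Cl.pt ≤ _) hn
    have h1 : (∃ k < 4, n = 1 + 8 * i + 4 * 0 + k) ∨ n = 25 + i := hX i hi 0 (by omega) h1
    have h2 : (∃ k < 4, n = 1 + 8 * i + 4 * 1 + k) ∨ n = 25 + i := hX i hi 1 (by omega) h2
    show n = 25 + i
    rcases h1 with ⟨k, hk, h1⟩ | h1
    · rcases h2 with ⟨k', hk', h2⟩ | h2 <;> omega
    · exact h1
  have hxx : ∀ i < 3, ∀ j < 3, i ≠ j → (tx i).eval Cl.pt ⊓ (tx j).eval Cl.pt ≤ ⊥ := by
    intro i hi j hj hij n hn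
    have h1 := hx i hi ((inf_le_left : (tx i).eval Cl.pt ⊓ (tx j).eval Cl.pt ≤ _) hn)
    have h2 := hx j hj ((inf_le_right : (tx i).eval Cl.pt ⊓ (tx j).eval Cl.pt ≤ _) hn)
    have h1 : n = 25 + i := h1
    have h2 : n = 25 + j := h2
    omega
  have h0 : t0.eval Cl.pt ≤ ⊥ :=
    (t0_le _ _).2 ⟨hxx 0 (by omega) 1 (by omega) (by omega),
      hxx 0 (by omega) 2 (by omega) (by omega), hxx 1 (by omega) 2 (by omega) (by omega)⟩
  have hO : ∀ i, (hi : i < 3) → ∀ l, (hl : l < 2) → ∀ a, (ha : a < 4) →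
      (tO i l a).eval Cl.pt ≤ zO i l a hl ha hi := by
    intro i hi l hl a ha
    rw [tO_le]
    refine ⟨h0.trans bot_le, fun k hk hka => ?_⟩
    exact (Cl.pt_le _ _).2 ⟨k, hk, hka, rfl⟩
  have hM : ∀ i < 3, ∀ a < 4, ∀ b < 4, (tM i a b).eval Cl.pt ≤ Cl.pt 0 := by
    intro i hi a ha b hb n hn
    have h1 := hO i hi 0 (by omega) a ha ((inf_le_left : (tM i a b).eval Cl.pt ≤ _) hn)
    have h2 := hO i hi 1 (by omega) b hb ((inf_le_right : (tM i a b).eval Cl.pt ≤ _) hn)
    obtain ⟨k, hk, -, h1⟩ := h1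
    obtain ⟨k', hk', -, h2⟩ := h2
    omega
  have hT : tT.eval Cl.pt ≤ Cl.pt 0 := (tT_le _ _).2 ⟨hM, le_rfl, h0.trans bot_le⟩
  -- lower bound of `S`
  have hS : Cl.pt 28 ≤ tS.eval Cl.pt := by
    apply le_tS
    intro i hi
    rw [Cl.pt_le]
    have hXa : ∀ l < 2, 25 + i ∈ ((tX i l).eval Cl.pt).1 := by
      intro l hl
      apply ((tX i l).eval Cl.pt).2.1 i hi l hl
      intro k hk
      exact (Cl.pt_le _ _).1 ((tX_le Cl.pt _ i l).1 le_rfl k hk)
    have hxa : Cl.pt (25 + i) ≤ (tx i).eval Cl.pt :=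
      le_inf ((Cl.pt_le _ _).2 (hXa 0 (by omega))) ((Cl.pt_le _ _).2 (hXa 1 (by omega)))
    apply ((tx i).eval Cl.pt ⊔ tu.eval Cl.pt).2.2 i hi
    · exact (Cl.pt_le _ _).1 (hxa.trans le_sup_left)
    · exact (Cl.pt_le _ _).1 (le_sup_right : tu.eval Cl.pt ≤ _)
  have := (Cl.pt_le 28 _).1 (hS.trans (hST.trans hT))
  have : (28 : ℕ) = 0 := this
  omega

end Pool.Agent.J4.H33.DM
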